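import Mathlib
import Pool.Agent.Work.MP_c971ef_nt.CP.G4

set_option autoImplicit false

namespace Pool.Agent.Results.MP_c971ef_nt.IndexRuns

open Finset Pool.Agent.Work.MP_c971ef_nt.CP

/-- For every `L` there are `R, κ, N₀` and `δ, c > 0` such that for `N ≥ N₀` at least
`c N / (log N) ^ κ` of the integers `m ≤ N` have the following property: for all `k, n` with
`m ≤ k n < m + L`, the number `p_{kn} ^ 2 - 2` has at most `R` prime factors, all at least `N ^ δ`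
(`p_t = Nat.nth Nat.Prime (t - 1)` is the `t`-th prime). -/
theorem result (L : ℕ) : ∃ (R κ : ℕ) (δ c : ℝ) (N₀ : ℕ), 0 < δ ∧ 0 < c ∧ ∀ N : ℕ, N₀ ≤ N →
    c * (N / (Real.log N) ^ κ) ≤ ({m : ℕ | 1 ≤ m ∧ m ≤ N ∧
      ∀ k n : ℕ, m ≤ k * n → k * n < m + L →
        ArithmeticFunction.cardFactors ((Nat.nth Nat.Prime (k * n - 1)) ^ 2 - 2) ≤ R ∧
        ∀ r : ℕ, r.Prime → r ∣ (Nat.nth Nat.Prime (k * n - 1)) ^ 2 - 2 →
          (N : ℝ) ^ δ ≤ r}.ncard : ℝ) := by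
  classical
  obtain ⟨κ, R, δ, c, hδ, hc, N₀, h⟩ := runs L
  refine ⟨R, κ, δ, c, N₀, hδ, hc, fun N hN => (h N hN).trans ?_⟩
  rw [← Set.ncard_coe_finset]
  have hfin : ({m : ℕ | 1 ≤ m ∧ m ≤ N ∧ ∀ k n : ℕ, m ≤ k * n → k * n < m + L →
      ArithmeticFunction.cardFactors ((Nat.nth Nat.Prime (k * n - 1)) ^ 2 - 2) ≤ R ∧
      ∀ r : ℕ, r.Prime → r ∣ (Nat.nth Nat.Prime (k * n - 1)) ^ 2 - 2 →
        (N : ℝ) ^ δ ≤ r}).Finite :=
    (Set.finite_Icc 1 N).subset fun m hm => ⟨hm.1, hm.2.1⟩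
  have key := Set.ncard_le_ncard (s := ((Icc 1 N).filter (fun m => ∀ j, j < L →
    ArithmeticFunction.cardFactors (P (m + j) ^ 2 - 2) ≤ R ∧
    ∀ r : ℕ, r.Prime → r ∣ P (m + j) ^ 2 - 2 → (N : ℝ) ^ δ ≤ r) : Set ℕ)) (ht := hfin) ?_
  · exact_mod_cast key
  intro m hm
  rw [mem_coe, mem_filter, mem_Icc] at hm
  refine ⟨hm.1.1, hm.1.2, fun k n h1 h2 => ?_⟩
  have h3 := hm.2 (k * n - m) (by omega)
  have h4 : m + (k * n - m) = k * n := by omega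
  rw [h4] at h3
  exact h3

end Pool.Agent.Results.MP_c971ef_nt.IndexRuns
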