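import Mathlib
import Pool.Agent.Work.MP_c971ef_nt.AlmostAll

set_option autoImplicit false

namespace Pool.Agent.Results.MP_c971ef_nt.LeastKAlmostAll

/-- For every `ε > 0` there is `C > 0` such that for all `N ≥ 3` and `K ≥ 1`, at most
`C K N / (log N)^(1 - ε)` of the integers `1 ≤ n ≤ N` have some `1 ≤ k ≤ K` for which
`p_{kn}^2 - 2` is prime (`p_m` is the `m`-th prime, `p_1 = 2`). -/
theorem result :
    ∀ ε : ℝ, 0 < ε → ∃ C : ℝ, 0 < C ∧ ∀ N K : ℕ, 3 ≤ N → 1 ≤ K →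
      (((Finset.Icc 1 N).filter (fun n : ℕ => ∃ k ∈ Finset.Icc 1 K,
        Nat.Prime ((Nat.nth Nat.Prime (k * n - 1)) ^ 2 - 2))).card : ℝ) ≤
        C * K * N / (Real.log N) ^ (1 - ε) := by
  intro ε hε
  obtain ⟨C, hC, h⟩ := Pool.Agent.Work.MP_c971ef_nt.almost_all ε hε
  refine ⟨C, hC, ?_⟩
  intro N K hN hK
  exact h N K hN hK

end Pool.Agent.Results.MP_c971ef_nt.LeastKAlmostAll
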