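import Mathlib
import Pool.Agent.Work.MP_c971ef_nt.Rough

set_option autoImplicit false

namespace Pool.Agent.Work.MP_c971ef_nt.Old.LeastKManyN

/-- There is `c > 0` such that for every `N ≥ 16`, at least `c N / log log N` of the integers
`1 ≤ n ≤ N` have `p_{kn}^2 - 2` composite for every `1 ≤ k ≤ c log N / log log N`
(`p_m` is the `m`-th prime, `p_1 = 2`). -/
theorem result :
    ∃ c : ℝ, 0 < c ∧ ∀ N : ℕ, 16 ≤ N →
      c * N / Real.log (Real.log N) ≤
        (((Finset.Icc 1 N).filter (fun n : ℕ =>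
          ∀ k ∈ Finset.Icc 1 ⌊c * Real.log N / Real.log (Real.log N)⌋₊,
            ¬ Nat.Prime ((Nat.nth Nat.Prime (k * n - 1)) ^ 2 - 2))).card : ℝ) := by
  refine ⟨Real.exp (-9) / 400000, by positivity, ?_⟩
  intro N hN
  exact Pool.Agent.Work.MP_c971ef_nt.many_large N hN

end Pool.Agent.Work.MP_c971ef_nt.Old.LeastKManyN
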