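import Mathlib
import Pool.Agent.Work.MP_c971ef_nt.Sparse

set_option autoImplicit false

namespace Pool.Agent.Results.MP_c971ef_nt.SparsePairs

/-- There is `C > 0` such that for all `N ≥ 3` and `K ≥ 1`, at most
`C K N / (log N)^(2 - e log 2)` of the `K N` pairs `(k, n)` with `1 ≤ k ≤ K`, `1 ≤ n ≤ N` have
`p_{kn}^2 - 2` prime (`p_m` is the `m`-th prime, `p_1 = 2`); the exponent
`2 - e log 2 = 0.1158...` is positive. -/
theorem result :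
    0 < 2 - Real.exp 1 * Real.log 2 ∧
    ∃ C : ℝ, 0 < C ∧ ∀ N K : ℕ, 3 ≤ N → 1 ≤ K →
      (((Finset.Icc 1 K ×ˢ Finset.Icc 1 N).filter (fun x : ℕ × ℕ =>
        Nat.Prime ((Nat.nth Nat.Prime (x.1 * x.2 - 1)) ^ 2 - 2))).card : ℝ) ≤
        C * K * N / (Real.log N) ^ (2 - Real.exp 1 * Real.log 2) := by
  constructor
  · have h1 := Real.exp_one_lt_d9
    have h2 := Real.log_two_lt_d9
    have h3 := Real.exp_pos 1
    have h4 : 0 < Real.log 2 := Real.log_pos (by norm_num)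
    nlinarith
  obtain ⟨C, hC, h⟩ := Pool.Agent.Work.MP_c971ef_nt.gp_le
  refine ⟨C, hC, ?_⟩
  intro N K hN hK
  have h1 := h K N hN hK
  have e : ((Finset.Icc 1 K ×ˢ Finset.Icc 1 N).filter (fun x : ℕ × ℕ =>
        Nat.Prime ((Nat.nth Nat.Prime (x.1 * x.2 - 1)) ^ 2 - 2))) =
      Pool.Agent.Work.MP_c971ef_nt.gp K N := by
    unfold Pool.Agent.Work.MP_c971ef_nt.gp
    ext x
    simp only [Finset.mem_filter, Finset.mem_product, Finset.mem_Icc, Finset.mem_Ioc]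
    constructor
    · rintro ⟨⟨⟨a1, a2⟩, ⟨a3, a4⟩⟩, a5⟩
      exact ⟨⟨⟨by omega, a2⟩, ⟨by omega, a4⟩⟩, a5⟩
    · rintro ⟨⟨⟨a1, a2⟩, ⟨a3, a4⟩⟩, a5⟩
      exact ⟨⟨⟨by omega, a2⟩, ⟨by omega, a4⟩⟩, a5⟩
  rw [e]
  exact h1

end Pool.Agent.Results.MP_c971ef_nt.SparsePairs
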